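import Pool.Agent.R39.Corona

/-!
A single sequence of trees which is `k`-universal for every `k`.
-/

namespace Pool.Agent.Results.MP_f40460_co.UniversalForAllSizes

open Finset Filter
open scoped Classical

/-- The `k`-subtrees of `T`: the sets of `k` vertices inducing a connected subgraph. -/
noncomputable def kSubtrees {V : Type} [Fintype V] (T : SimpleGraph V) (k : ℕ) :
    Finset (Finset V) :=
  univ.filter (fun U : Finset V => U.card = k ∧ (T.induce (U : Set V)).Connected)

/-- `Z_k(T)`: the number of `k`-subtrees of `T`. -/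
noncomputable def Z {V : Type} [Fintype V] (T : SimpleGraph V) (k : ℕ) : ℕ :=
  (kSubtrees T k).card

/-- `c(S, T)`: the number of `k`-subtrees `U` of `T` with `T[U] ≅ S`. -/
noncomputable def copies {V : Type} [Fintype V] {k : ℕ} (S : SimpleGraph (Fin k))
    (T : SimpleGraph V) : ℕ :=
  ((kSubtrees T k).filter (fun U : Finset V => Nonempty (T.induce (U : Set V) ≃g S))).card

/-- The sequence `T` is `k`-universal: `T n` has at least `k` vertices for all large `n`, and for
every tree `S` on `k` vertices the proportion of copies of `S` among the `k`-subtrees of `T n`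
has a positive limit inferior. -/
def KUniversal (V : ℕ → Type) [∀ n, Fintype (V n)] (T : ∀ n, SimpleGraph (V n)) (k : ℕ) :
    Prop :=
  (∀ᶠ n in atTop, k ≤ Fintype.card (V n)) ∧
    ∀ S : SimpleGraph (Fin k), S.IsTree →
      0 < liminf (fun n => (copies S (T n) : ℝ) / (Z (T n) k : ℝ)) atTop

/-- There is a sequence of trees which is `k`-universal for every `k ≥ 1`. -/
theorem result : ∃ (V : ℕ → Type) (_ : ∀ n, Fintype (V n)) (T : ∀ n, SimpleGraph (V n)),
    (∀ n, (T n).IsTree) ∧ ∀ k : ℕ, 1 ≤ k → KUniversal V T k := by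
  refine ⟨fun n => (Pool.Agent.R39.Corona.TT n).V, fun n => (Pool.Agent.R39.Corona.TT n).fin,
    fun n => (Pool.Agent.R39.Corona.TT n).G, Pool.Agent.R39.Corona.TT_isTree, ?_⟩
  intro k hk
  constructor
  · rw [eventually_atTop]
    refine ⟨k, fun n hn => ?_⟩
    have h1 := Pool.Agent.R39.Corona.card_TT n
    have h2 : n < 2 ^ n := Nat.lt_two_pow_self
    have h3 : k ≤ 2 ^ n := by omega
    rw [← h1] at h3
    exact h3
  · intro S hS
    obtain ⟨m, rfl⟩ : ∃ m, k = m + 1 := ⟨k - 1, by omega⟩
    obtain ⟨C, hC⟩ := Pool.Agent.R39.Corona.ks_upper (m + 1)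
    have hZ : ∀ n, Z (Pool.Agent.R39.Corona.TT n).G (m + 1) ≤ C * 2 ^ n := by
      intro n
      refine le_trans (le_of_eq ?_) (hC n)
      unfold Z kSubtrees Pool.Agent.R39.Corona.ks
      congr 1
      ext U
      simp only [mem_filter, mem_univ, true_and]
      rw [Pool.Agent.H606AC.CS_iff]
    have hlow : ∀ n, 2 ^ n ≤ copies S (Pool.Agent.R39.Corona.TT (m + n)).G := by
      intro n
      refine (Pool.Agent.R39.Corona.cop_lower m (Fin (m + 1)) S hS (by simp) n).trans ?_
      apply card_le_card
      intro U hU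
      obtain ⟨f, hf⟩ := Pool.Agent.R39.Corona.mem_cop.1 hU
      have e : S ≃g (Pool.Agent.R39.Corona.TT (m + n)).G.induce (Set.range f) :=
        f.isoInduceRange
      rw [hf] at e
      rw [mem_filter]
      refine ⟨?_, ⟨e.symm⟩⟩
      unfold kSubtrees
      rw [mem_filter]
      refine ⟨mem_univ _, ?_, e.connected_iff.1 hS.connected⟩
      have h1 := Fintype.card_congr e.toEquiv
      rw [Fintype.card_fin] at h1
      rw [h1]
      simp
    have hle : ∀ n, copies S (Pool.Agent.R39.Corona.TT n).G ≤
        Z (Pool.Agent.R39.Corona.TT n).G (m + 1) := fun n => card_filter_le _ _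
    have hlb : ∀ᶠ n in atTop, (1 : ℝ) / (C * 2 ^ m) ≤
        (copies S (Pool.Agent.R39.Corona.TT n).G : ℝ) /
          (Z (Pool.Agent.R39.Corona.TT n).G (m + 1) : ℝ) := by
      rw [eventually_atTop]
      refine ⟨m, fun n hn => ?_⟩
      obtain ⟨d, rfl⟩ : ∃ d, n = m + d := ⟨n - m, by omega⟩
      have h1 := hlow d
      have h2 := hZ (m + d)
      have h3 := hle (m + d)
      have hpos : 0 < 2 ^ d := by positivity
      have hZpos : 0 < Z (Pool.Agent.R39.Corona.TT (m + d)).G (m + 1) := by omega
      have hCpos : 0 < C := by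
        rcases Nat.eq_zero_or_pos C with h0 | h0
        · rw [h0, zero_mul] at h2; omega
        · exact h0
      have hC' : (0 : ℝ) < C := by exact_mod_cast hCpos
      have hZ' : (0 : ℝ) < (Z (Pool.Agent.R39.Corona.TT (m + d)).G (m + 1) : ℝ) := by
        exact_mod_cast hZpos
      rw [div_le_div_iff₀ (by positivity) hZ', one_mul]
      have h4 : (Z (Pool.Agent.R39.Corona.TT (m + d)).G (m + 1) : ℝ) ≤ C * 2 ^ (m + d) := by
        exact_mod_cast h2
      have h5 : (2 : ℝ) ^ d ≤ (copies S (Pool.Agent.R39.Corona.TT (m + d)).G : ℝ) := by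
        exact_mod_cast h1
      calc (Z (Pool.Agent.R39.Corona.TT (m + d)).G (m + 1) : ℝ) ≤ C * 2 ^ (m + d) := h4
        _ = 2 ^ d * (C * 2 ^ m) := by rw [pow_add]; ring
        _ ≤ _ := mul_le_mul_of_nonneg_right h5 (by positivity)
    have hub : ∀ n, (copies S (Pool.Agent.R39.Corona.TT n).G : ℝ) /
          (Z (Pool.Agent.R39.Corona.TT n).G (m + 1) : ℝ) ≤ 1 := by
      intro n
      apply div_le_one_of_le₀
      · exact_mod_cast hle n
      · positivity
    have hCm : (0 : ℝ) < 1 / (C * 2 ^ m) := by
      have hCpos : 0 < C := by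
        have h1 := hlow 0
        have h2 := hZ (m + 0)
        have h3 := hle (m + 0)
        rcases Nat.eq_zero_or_pos C with h0 | h0
        · rw [h0, zero_mul] at h2; omega
        · exact h0
      have hC' : (0 : ℝ) < C := by exact_mod_cast hCpos
      positivity
    refine lt_of_lt_of_le hCm ?_
    rw [liminf_eq]
    apply le_csSup
    · refine ⟨1, ?_⟩
      rintro a ha
      rw [Set.mem_ofPred_eq] at ha
      obtain ⟨n, hn⟩ := ha.exists
      exact hn.trans (hub n)
    · exact hlb

end Pool.Agent.Results.MP_f40460_co.UniversalForAllSizes
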